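import Pool.Agent.helper14.XG.SpecA

set_option autoImplicit false

namespace Pool.Agent.XG

open Finset SimpleGraph Pool.Agent.XT

theorem ADG (hMMO : MMO_stmt) (hDUA : DUA_stmt) : ADG_stmt := by
  intro m n α β B hB
  obtain ⟨hss, -, hmem, -, -, -, hsub, -⟩ := hDUA n B
  refine ⟨?_, ?_, ?_⟩
  · intro B' hB'
    obtain ⟨h1, -, -, -⟩ := hsub B' hB'
    refine ⟨?_, ?_⟩
    · intro h
      exact hB.1 (hMMO n n B' B (Function.Embedding.refl _) (Function.Embedding.refl _) (fun p l hpl => hB' hpl) h)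
    · intro h
      exact hB.2 (hMMO n n (sw B') (sw B) (Function.Embedding.refl _) (Function.Embedding.refl _)
        (fun p l hpl => h1 hpl) h)
  · refine ⟨hB.2, ?_⟩
    rw [hss]
    exact hB.1
  · set C : FS m := Finset.univ.filter (fun e : Fin m × Fin m => (α e.1, β e.2) ∈ B) with hC
    have hCm : ∀ p l, (p, l) ∈ C ↔ (α p, β l) ∈ B := by
      intro p l
      rw [hC, Finset.mem_filter]
      exact ⟨fun h => h.2, fun h => ⟨Finset.mem_univ _, h⟩⟩
    obtain ⟨-, -, hmemC, -⟩ := hDUA m C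
    refine ⟨?_, ?_⟩
    · intro h
      exact hB.1 (hMMO m n C B α β (fun p l hpl => (hCm p l).1 hpl) h)
    · intro h
      refine hB.2 (hMMO m n (sw C) (sw B) β α (fun p l hpl => ?_) h)
      rw [hmem]
      exact (hCm l p).1 ((hmemC p l).1 hpl)

end Pool.Agent.XG
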