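import Pool.Agent.helper14.XG.SpecA

set_option autoImplicit false

namespace Pool.Agent.XG

open Finset SimpleGraph Pool.Agent.XT

theorem CLH_dP {n : ℕ} {B B' : FS n} (h : B' ⊆ B) (p : Fin n) : dP B' p ⊆ dP B p := by
  intro l hl
  rw [dP, mem_filter] at hl ⊢
  exact ⟨hl.1, h hl.2⟩

theorem CLH_dL {n : ℕ} {B B' : FS n} (h : B' ⊆ B) (l : Fin n) : dL B' l ⊆ dL B l := by
  intro p hp
  rw [dL, mem_filter] at hp ⊢
  exact ⟨hp.1, h hp.2⟩

theorem CLH (hCLN : CLN_stmt) : CLH_stmt := by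
  intro κ n D B hκ hn hD hP hL hB
  obtain ⟨B', hB', hc, hd⟩ := hCLN n B (κ * D) (by positivity)
  refine ⟨B', hB', hn, hD, ?_, ?_, ?_, ?_, ?_⟩
  · intro p
    exact (card_le_card (CLH_dP hB' p)).trans (hP p)
  · intro l
    exact (card_le_card (CLH_dL hB' l)).trans (hL l)
  · intro p l h
    exact (hd p l h).1
  · intro p l h
    exact (hd p l h).2
  · have h0 : 0 ≤ κ * n * D := by positivity
    have e : 2 * (n : ℝ) * (κ * D) = 2 * (κ * n * D) := by ring
    have e2 : 4 * κ * n * D = 4 * (κ * n * D) := by ring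
    rw [e] at hc
    rw [e2] at hB
    linarith

end Pool.Agent.XG
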