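import Pool.Agent.helper14.XG.SpecA

set_option autoImplicit false

namespace Pool.Agent.XG

open Finset SimpleGraph Pool.Agent.XT

theorem ONE_dP {n : ℕ} {B B' : FS n} (h : B' ⊆ B) (p : Fin n) : dP B' p ⊆ dP B p := by
  intro l hl
  rw [dP, mem_filter] at hl ⊢
  exact ⟨hl.1, h hl.2⟩

theorem ONE_dL {n : ℕ} {B B' : FS n} (h : B' ⊆ B) (l : Fin n) : dL B' l ⊆ dL B l := by
  intro p hp
  rw [dL, mem_filter] at hp ⊢
  exact ⟨hp.1, h hp.2⟩

theorem ONE (hLMG : LMG_stmt) (hDNG : DNG_stmt) (hSYX : SYX_stmt) (hCLH : CLH_stmt)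
    (hMMO : MMO_stmt) : ONE_stmt := by
  intro κ hκ
  have hκ8 : 0 < κ / 8 := by linarith
  obtain ⟨A, hA, hAA⟩ := hDNG (κ / 8) hκ8
  obtain ⟨C, hC⟩ := hLMG (κ / 8) hκ8 A hA
  refine ⟨C, ?_⟩
  intro n D B hB hn8 hD3
  by_cases hG : κ / 4 * n * D ≤ ((GF B).card : ℝ)
  · exact Or.inr hG
  left
  push Not at hG
  have hsub : B \ GF B ⊆ B := sdiff_subset
  have hcard : (B.card : ℝ) ≤ ((B \ GF B).card : ℝ) + ((GF B).card : ℝ) := by
    have h1 : B.card ≤ (B \ GF B).card + (GF B).card := by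
      have h2 : B ⊆ (B \ GF B) ∪ GF B := by
        intro e he
        rw [mem_union, mem_sdiff]
        by_cases h : e ∈ GF B
        · exact Or.inr h
        · exact Or.inl ⟨he, h⟩
      exact (card_le_card h2).trans (card_union_le _ _)
    exact_mod_cast h1
  obtain ⟨B', hB', hH⟩ := hCLH (κ / 8) n D (B \ GF B) hκ8 hB.n0 hB.d0
    (fun p => (card_le_card (ONE_dP hsub p)).trans (hB.pu p))
    (fun l => (card_le_card (ONE_dL hsub l)).trans (hB.lu l))
    (by
      have h3 := hB.big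
      have h0 : 0 ≤ κ * n * D := by positivity
      have e1 : 4 * (κ / 8) * n * D = (κ * n * D) / 2 := by ring
      have e2 : κ / 4 * n * D = (κ * n * D) / 4 := by ring
      rw [e2] at hG
      rw [e1]
      linarith)
  have hB'B : B' ⊆ B := hB'.trans hsub
  obtain ⟨F, hF⟩ := hSYX n B B' hB'B (fun e he => (mem_sdiff.1 (hB' he)).2)
  have hM := hAA n D B' hH hD3 (hC n D B' _ F hH hF hn8 hD3)
  exact hMMO n n B' B (Function.Embedding.refl _) (Function.Embedding.refl _)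
    (fun p l hpl => hB'B hpl) hM

end Pool.Agent.XG
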