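import Pool.Agent.helper14.XG.SpecA

set_option autoImplicit false

namespace Pool.Agent.XG

open Finset SimpleGraph Pool.Agent.XT

theorem STG : STG_stmt := by
  intro n m hm hmn
  have hm0 : (0 : ℝ) < m := by exact_mod_cast hm
  have hm1 : (1 : ℝ) ≤ m := by exact_mod_cast hm
  have hn : (2 : ℝ) ^ 13 * m ≤ n := by
    rw [le_div_iff₀ (by positivity)] at hmn
    linarith
  have hn0 : (0 : ℝ) < n := lt_of_lt_of_le (by positivity) hn
  have h1 : (n : ℝ) / m + 1 ≤ 2 * n / m := by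
    rw [div_add_one hm0.ne']
    apply div_le_div_of_nonneg_right _ hm0.le
    nlinarith
  have h2 : (m : ℝ) ^ (33 / 25 : ℝ) = m * (m : ℝ) ^ (8 / 25 : ℝ) := by
    have : (33 / 25 : ℝ) = 1 + 8 / 25 := by norm_num
    rw [this, Real.rpow_add hm0, Real.rpow_one]
  have h3 : (n : ℝ) ^ (33 / 25 : ℝ) = n * (n : ℝ) ^ (8 / 25 : ℝ) := by
    have : (33 / 25 : ℝ) = 1 + 8 / 25 := by norm_num
    rw [this, Real.rpow_add hn0, Real.rpow_one]
  have h4 : (m : ℝ) ^ (8 / 25 : ℝ) ≤ (n : ℝ) ^ (8 / 25 : ℝ) / 16 := by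
    have h5 : (m : ℝ) ^ (8 / 25 : ℝ) ≤ (n / 2 ^ 13 : ℝ) ^ (8 / 25 : ℝ) :=
      Real.rpow_le_rpow hm0.le hmn (by norm_num)
    rw [Real.div_rpow hn0.le (by positivity)] at h5
    have h6 : (16 : ℝ) ≤ ((2 : ℝ) ^ 13) ^ (8 / 25 : ℝ) := by
      rw [← Real.rpow_natCast, ← Real.rpow_mul (by norm_num)]
      have h7 : ((2 : ℝ)) ^ ((4 : ℕ) : ℝ) ≤ (2 : ℝ) ^ (((13 : ℕ) : ℝ) * (8 / 25)) :=
        Real.rpow_le_rpow_of_exponent_le (by norm_num) (by norm_num)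
      rw [Real.rpow_natCast] at h7
      have h8 : (2 : ℝ) ^ 4 = 16 := by norm_num
      rw [h8] at h7
      exact h7
    refine h5.trans ?_
    exact div_le_div_of_nonneg_left (Real.rpow_nonneg hn0.le _) (by norm_num) h6
  rw [h2, h3]
  have h7 : 0 ≤ (m : ℝ) * (m : ℝ) ^ (8 / 25 : ℝ) := by positivity
  calc ((n : ℝ) / m + 1) * (m * (m : ℝ) ^ (8 / 25 : ℝ))
      ≤ (2 * n / m) * (m * (m : ℝ) ^ (8 / 25 : ℝ)) := mul_le_mul_of_nonneg_right h1 h7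
    _ = 2 * n * (m : ℝ) ^ (8 / 25 : ℝ) := by field_simp
    _ ≤ 2 * n * ((n : ℝ) ^ (8 / 25 : ℝ) / 16) := mul_le_mul_of_nonneg_left h4 (by positivity)
    _ = n * (n : ℝ) ^ (8 / 25 : ℝ) / 8 := by ring

end Pool.Agent.XG
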