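import Pool.Agent.helper14.XG.SpecA

set_option autoImplicit false

namespace Pool.Agent.XG

open Finset SimpleGraph Pool.Agent.XT

theorem SWH (hDUA : DUA_stmt) : SWH_stmt := by
  intro κ n D B hB
  obtain ⟨-, hcard, hmem, hP, hL, -, -, -⟩ := hDUA n B
  refine ⟨hB.n0, hB.d0, ?_, ?_, ?_, ?_, ?_⟩
  · intro p
    rw [hP]
    exact hB.lu p
  · intro l
    rw [hL]
    exact hB.pu l
  · intro p l h
    rw [hP]
    exact hB.ll l p ((hmem p l).1 h)
  · intro p l h
    rw [hL]
    exact hB.pl l p ((hmem p l).1 h)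
  · rw [hcard]
    exact hB.big

end Pool.Agent.XG
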