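import Pool.Agent.helper14.XG.Spec

set_option autoImplicit false

namespace Pool.Agent.XG

open Finset Pool.Agent.XT

theorem BAS_com {n : ℕ} (B : FS n) (x y : Fin n) : com B x y = com B y x := by
  ext l
  simp only [com, mem_filter, mem_univ, true_and]
  exact and_comm

theorem BAS_Lt {n : ℕ} (B : FS n) (Nr : Fin n → Fin n → Prop) (F : Fin n → Fin n → Finset (VV n))
    (hS : Sy B Nr F) (x y : Fin n) (h : Lt B Nr x y) : Lt B Nr y x := by
  obtain ⟨h1, h2, h3, h4⟩ := h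
  rw [BAS_com B x y] at h3 h4
  exact ⟨fun e => h1 e.symm, hS.sy _ _ h2, h3, h4⟩

theorem BAS_Wk {n : ℕ} (B : FS n) (Nr : Fin n → Fin n → Prop) (F : Fin n → Fin n → Finset (VV n))
    (hS : Sy B Nr F) (y a b : Fin n) (h : Wk B Nr F y a b) : Wk B Nr F y b a := by
  obtain ⟨h1, h2, h3, h4, h5, h6⟩ := h
  exact ⟨BAS_Lt B Nr F hS _ _ h1, fun m hm => h2 m ⟨hm.2.1, hm.1, hm.2.2⟩, h5, h6, h3, h4⟩

theorem BAS : BAS_stmt := by
  classical
  intro n B Nr F hS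
  refine ⟨BAS_com B, BAS_Lt B Nr F hS, ?_, ?_, ?_, ?_, ?_, ?_⟩
  · rintro x y ⟨h1, h2, h3⟩
    rw [BAS_com B x y] at h3
    exact ⟨fun e => h1 e.symm, hS.sy _ _ h2, h3⟩
  · intro y a b h
    exact ⟨BAS_Wk B Nr F hS y a b h, h.1.1⟩
  · rintro l y a b ⟨ha, hb, hw, s, m, h1, h2, h3, h4, h5, h6, h7, h8⟩
    exact ⟨hb, ha, BAS_Wk B Nr F hS y a b hw, m, s, h4, h5, h6, h1, h2, h3, h8, h7⟩
  · rintro t a l x m b ⟨h1, h2, h3, h4, h5, h6, h7, h8, h9, h10, h11, h12, h13, h14⟩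
    refine ⟨⟨BAS_Lt B Nr F hS _ _ h2, BAS_Lt B Nr F hS _ _ h1, h6, h5, h4, h3, h8, h7, h10, h9,
      h13, h14, h11, h12⟩, ?_, ?_⟩
    · rintro rfl
      exact h7 h3
    · rintro rfl
      exact h7 h6
  · rintro t t' a l x m b htt ⟨h1, h2, h3, h4, h5, h6, h7, h8, h9, h10, h11, h12, h13, h14⟩
    exact ⟨h1, h2, h3, h4, h5, h6, h7, h8, h9.trans htt, h10.trans htt, h11, h12, h13, h14⟩
  · intro x y l hxy hx hy
    by_cases hN : Nr x y
    · by_cases hc : (com B x y).card ≤ KK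
      · left
        refine ⟨hxy, hN, ⟨l, ?_⟩, hc⟩
        rw [com, mem_filter]
        exact ⟨mem_univ _, hx, hy⟩
      · right
        left
        exact ⟨hxy, hN, not_le.1 hc⟩
    · right
      right
      exact hN

end Pool.Agent.XG
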