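import Pool.Agent.helper14.XG.Spec

set_option autoImplicit false

namespace Pool.Agent.XG

open Finset Pool.Agent.XT

/-- Rotation by `i`. -/
def C6R_rot {n : ℕ} (i : Fin 3) (t : (Fin 3 → Fin n) × (Fin 3 → Fin n)) :
    (Fin 3 → Fin n) × (Fin 3 → Fin n) :=
  (fun j => t.1 (j + i), fun j => t.2 (j + i))

theorem C6R_inj {n : ℕ} (i : Fin 3) : Function.Injective (C6R_rot (n := n) i) := by
  intro t t' h
  have h1 : ∀ j, t.1 (j + i) = t'.1 (j + i) := fun j => congrFun (congrArg Prod.fst h) j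
  have h2 : ∀ j, t.2 (j + i) = t'.2 (j + i) := fun j => congrFun (congrArg Prod.snd h) j
  apply Prod.ext
  · funext j
    have := h1 (j - i)
    rwa [sub_add_cancel] at this
  · funext j
    have := h2 (j - i)
    rwa [sub_add_cancel] at this

theorem C6R : C6R_stmt := by
  classical
  intro n B Nr
  have hsub : TR B Nr ⊆ (univ : Finset (Fin 3)).biUnion
      (fun i => univ.filter (fun t => C6R_rot i t ∈ TRM B Nr)) := by
    intro t ht
    obtain ⟨i, hi⟩ : ∃ i : Fin 3, ∀ j, nn B Nr (t.2 j) (t.1 j) ≤ nn B Nr (t.2 i) (t.1 i) := by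
      obtain ⟨i, -, hi⟩ := Finset.exists_max_image (univ : Finset (Fin 3))
        (fun j => nn B Nr (t.2 j) (t.1 j)) ⟨0, mem_univ _⟩
      exact ⟨i, fun j => hi j (mem_univ _)⟩
    rw [mem_biUnion]
    refine ⟨i, mem_univ _, ?_⟩
    rw [TR, mem_filter] at ht
    obtain ⟨-, h1, h2⟩ := ht
    rw [mem_filter]
    refine ⟨mem_univ _, ?_⟩
    rw [TRM, mem_filter, TR, mem_filter]
    refine ⟨⟨mem_univ _, ?_, ?_⟩, ?_⟩
    · intro j k hjk
      exact h1 (j + i) (k + i) (fun e => hjk (add_right_cancel e))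
    · intro j
      exact h2 (j + i)
    · intro j
      show nn B Nr (t.2 (j + i)) (t.1 (j + i)) ≤ nn B Nr (t.2 (0 + i)) (t.1 (0 + i))
      rw [zero_add]
      exact hi _
  refine (card_le_card hsub).trans ?_
  refine (card_biUnion_le_card_mul _ _ (TRM B Nr).card ?_).trans ?_
  · intro i _
    apply card_le_card_of_injOn (C6R_rot i)
    · intro t ht
      exact (mem_filter.1 ht).2
    · exact (C6R_inj i).injOn
  · simp

end Pool.Agent.XG
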