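import Pool.Agent.helper14.XG.Spec

set_option autoImplicit false

namespace Pool.Agent.XG

open Finset Pool.Agent.XT

theorem C6S (hC6U : C6U_stmt) : C6S_stmt := by
  classical
  intro n D B Nr F hS hD
  have e1 : ∀ l y : Fin n, (TS B Nr F l y : ℝ) / (nn B Nr l y : ℝ)
      = ∑ e : Fin n × Fin n × Fin n, (if T3 B Nr F l y e.1 e.2.1 e.2.2 then
        1 / (nn B Nr l y : ℝ) else 0) := by
    intro l y
    rw [← Finset.sum_filter, Finset.sum_const, nsmul_eq_mul, TS]
    rw [mul_one_div]
  rw [Fintype.sum_prod_type]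
  have e2 : ∀ l : Fin n, ∑ y : Fin n, (TS B Nr F (l, y).1 (l, y).2 : ℝ) / (nn B Nr (l, y).1 (l, y).2 : ℝ)
      ≤ 60020 * (D : ℝ) ^ 3 := by
    intro l
    simp only [e1]
    rw [Finset.sum_comm]
    have e3 : ∀ e : Fin n × Fin n × Fin n,
        ∑ y : Fin n, (if T3 B Nr F l y e.1 e.2.1 e.2.2 then 1 / (nn B Nr l y : ℝ) else 0)
        ≤ if e ∈ dL B l ×ˢ dL B l ×ˢ dL B l then (60020 : ℝ) else 0 := by
      intro e
      split_ifs with h
      · rw [← Finset.sum_filter]
        exact hC6U n B Nr F hS l e.1 e.2.1 e.2.2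
      · apply le_of_eq
        apply Finset.sum_eq_zero
        intro y _
        rw [if_neg]
        intro h3
        apply h
        obtain ⟨⟨ha, hb, -⟩, ⟨-, hc, -⟩, -⟩ := h3
        rw [NS, mem_filter] at ha hb hc
        simp only [mem_product, dL, mem_filter, mem_univ, true_and]
        exact ⟨ha.2.2.1, hb.2.2.1, hc.2.2.1⟩
    refine (Finset.sum_le_sum (fun e _ => e3 e)).trans ?_
    rw [← Finset.sum_filter, Finset.sum_const, nsmul_eq_mul]
    have e4 : (univ.filter (fun e : Fin n × Fin n × Fin n => e ∈ dL B l ×ˢ dL B l ×ˢ dL B l)).card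
        ≤ D ^ 3 := by
      have e5 : (univ.filter (fun e : Fin n × Fin n × Fin n => e ∈ dL B l ×ˢ dL B l ×ˢ dL B l))
          = dL B l ×ˢ dL B l ×ˢ dL B l := by
        ext e
        simp
      rw [e5, card_product, card_product]
      have := hD.lu l
      calc (dL B l).card * ((dL B l).card * (dL B l).card) ≤ D * (D * D) := by gcongr
        _ = D ^ 3 := by ring
    have e6 : ((univ.filter (fun e : Fin n × Fin n × Fin n =>
        e ∈ dL B l ×ˢ dL B l ×ˢ dL B l)).card : ℝ) ≤ (D : ℝ) ^ 3 := by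
      exact_mod_cast e4
    linarith
  refine (Finset.sum_le_sum (fun l _ => e2 l)).trans ?_
  rw [Finset.sum_const, card_univ, Fintype.card_fin, nsmul_eq_mul]
  apply le_of_eq
  ring

end Pool.Agent.XG
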