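import Pool.Agent.helper14.XG.Spec

set_option autoImplicit false

namespace Pool.Agent.XG

open Finset Pool.Agent.XT

theorem C6T (hBAS : BAS_stmt) : C6T_stmt := by
  classical
  intro n B Nr F hS l y
  obtain ⟨-, -, -, -, hsym, -, -, -⟩ := hBAS n B Nr F hS
  -- fibres
  have hES : ES B Nr F l y = ∑ b ∈ NS B Nr l y,
      (univ.filter (fun a : Fin n => Ed B Nr F l y a b)).card := by
    rw [ES]
    rw [card_eq_sum_card_fiberwise (f := fun e : Fin n × Fin n => e.2) (t := NS B Nr l y)]
    · apply Finset.sum_congr rfl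
      intro b _
      refine card_bij' (fun e _ => e.1) (fun a _ => (a, b)) ?_ ?_ ?_ ?_
      · intro e he
        simp only [mem_filter, mem_univ, true_and] at he ⊢
        rw [← he.2]
        exact he.1
      · intro a ha
        simp only [mem_filter, mem_univ, true_and, and_true] at ha ⊢
        exact ha
      · intro e he
        simp only [mem_filter, mem_univ, true_and] at he
        rw [← he.2]
      · intro a _
        rfl
    · intro e he
      simp only [coe_filter, mem_univ, true_and, Set.mem_setOf_eq] at he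
      exact he.2.1
  have hCS : ES B Nr F l y ^ 2 ≤ nn B Nr l y * ∑ b ∈ NS B Nr l y,
      (univ.filter (fun a : Fin n => Ed B Nr F l y a b)).card ^ 2 := by
    rw [hES, nn]
    exact sq_sum_le_card_mul_sum_sq
  refine hCS.trans (Nat.mul_le_mul_left _ ?_)
  have hsum : ∑ b ∈ NS B Nr l y, (univ.filter (fun a : Fin n => Ed B Nr F l y a b)).card ^ 2
      = ((NS B Nr l y).sigma (fun b => (univ.filter (fun a : Fin n => Ed B Nr F l y a b)) ×ˢ
        (univ.filter (fun a : Fin n => Ed B Nr F l y a b)))).card := by
    rw [card_sigma]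
    apply Finset.sum_congr rfl
    intro b _
    rw [card_product, sq]
  rw [hsum]
  have hinj : ((NS B Nr l y).sigma (fun b => (univ.filter (fun a : Fin n => Ed B Nr F l y a b)) ×ˢ
        (univ.filter (fun a : Fin n => Ed B Nr F l y a b)))).card
      ≤ ((univ.filter (fun e : Fin n × Fin n × Fin n => T3 B Nr F l y e.1 e.2.1 e.2.2)) ∪
        (((NS B Nr l y ×ˢ NS B Nr l y).filter (fun e => ¬ Wk B Nr F y e.1 e.2)) ×ˢ
          NS B Nr l y).image (fun e => (e.1.1, e.2, e.1.2))).card := by
    apply card_le_card_of_injOn (fun x : (Σ _ : Fin n, Fin n × Fin n) => (x.2.1, x.1, x.2.2))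
    · rintro ⟨b, a, c⟩ hx
      simp only [coe_sigma, Set.mem_sigma_iff, mem_coe, mem_product, mem_filter, mem_univ,
        true_and] at hx
      obtain ⟨hb, hab, hcb⟩ := hx
      have hbc := hsym l y c b hcb
      by_cases hw : Wk B Nr F y a c
      · rw [coe_union]
        left
        simp only [coe_filter, mem_univ, true_and, Set.mem_setOf_eq]
        exact ⟨hab, hbc, hw⟩
      · rw [coe_union]
        right
        simp only [coe_image, Set.mem_image, mem_coe, mem_product, mem_filter]
        exact ⟨((a, c), b), ⟨⟨⟨hab.1, hcb.1⟩, hw⟩, hb⟩, rfl⟩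
    · rintro ⟨b, a, c⟩ _ ⟨b', a', c'⟩ _ h
      simp only [Prod.mk.injEq] at h
      obtain ⟨h1, h2, h3⟩ := h
      subst h1 h2 h3
      rfl
  refine hinj.trans ((card_union_le _ _).trans ?_)
  apply Nat.add_le_add
  · exact le_of_eq rfl
  · refine card_image_le.trans ?_
    rw [card_product]
    exact le_of_eq rfl

end Pool.Agent.XG
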