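import Pool.Agent.helper14.XG.Spec

set_option autoImplicit false

namespace Pool.Agent.XG

open Finset Pool.Agent.XT

theorem CPA_p (i : Fin 3) (j : Fin 3) (hi : i ≠ 2) : ((i, j) : Fin 3 × Fin 3) ≠ (2, 2) := by
  intro h
  exact hi (congrArg Prod.fst h)

/-- The first two stars of a tuple. -/
def CPA_f {n : ℕ} (q : (Fin 3 → Fin n) × (Fin 3 → Fin n) × (P8 → Fin n)) :
    (Fin n × (Fin 3 → Fin n)) × (Fin n × (Fin 3 → Fin n)) :=
  ((q.2.1 0, fun j => q.2.2 ⟨(0, j), CPA_p 0 j (by decide)⟩),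
    (q.2.1 1, fun j => q.2.2 ⟨(1, j), CPA_p 1 j (by decide)⟩))

theorem CPA (hSTB : STB_stmt) : CPA_stmt := by
  classical
  intro n B Nr F hS t t' ht a b x0 x1 l0 l1 Z hZ
  obtain ⟨x, hx⟩ : ∃ x : Fin 3 → Fin n, x = ![x0, x1, a] := ⟨_, rfl⟩
  have hqx : ∀ q ∈ Z, q.1 = x := by
    intro q hq
    obtain ⟨-, h2, -, h4, h5, -⟩ := hZ q hq
    rw [hx]
    funext i
    fin_cases i
    · exact h4
    · exact h5
    · exact h2
  obtain ⟨W, hW⟩ : ∃ W : Finset (Fin n × (Fin 3 → Fin n)), W = Finset.univ.filter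
      (fun q : Fin n × (Fin 3 → Fin n) => ∀ i j, i ≠ j →
        Ty B Nr F t (x i) (q.2 i) q.1 (q.2 j) (x j)) := ⟨_, rfl⟩
  have hWc : (W.card : ℝ) ≤ 60020 * (KK : ℝ) ^ 3 * t := by
    rw [hW]
    exact hSTB n B Nr F hS t ht x
  have hle : Z.card ≤ (W ×ˢ W).card := by
    apply card_le_card_of_injOn CPA_f
    · intro q hq
      have hq' : q ∈ Z := hq
      have hT := (hZ q hq').1
      rw [TG, mem_filter] at hT
      obtain ⟨-, h1, -⟩ := hT
      rw [mem_coe, mem_product, hW, mem_filter, mem_filter, ← hqx q hq']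
      refine ⟨⟨mem_univ _, ?_⟩, ⟨mem_univ _, ?_⟩⟩
      · intro i j hij
        exact h1 ⟨(0, i), CPA_p 0 i (by decide)⟩ ⟨(0, j), CPA_p 0 j (by decide)⟩ rfl hij
      · intro i j hij
        exact h1 ⟨(1, i), CPA_p 1 i (by decide)⟩ ⟨(1, j), CPA_p 1 j (by decide)⟩ rfl hij
    · intro q hq q' hq' h
      have hq1 : q ∈ Z := hq
      have hq2 : q' ∈ Z := hq'
      obtain ⟨-, -, hy, -, -, hs0, hs1⟩ := hZ q hq1
      obtain ⟨-, -, hy', -, -, hs0', hs1'⟩ := hZ q' hq2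
      have e1 : q.1 = q'.1 := (hqx q hq1).trans (hqx q' hq2).symm
      have hf1 := congrArg Prod.fst h
      have hf2 := congrArg Prod.snd h
      have g1 : q.2.1 0 = q'.2.1 0 := congrArg Prod.fst hf1
      have g2 : q.2.1 1 = q'.2.1 1 := congrArg Prod.fst hf2
      have g3 : ∀ j, q.2.2 ⟨(0, j), CPA_p 0 j (by decide)⟩
          = q'.2.2 ⟨(0, j), CPA_p 0 j (by decide)⟩ := fun j => congrFun (congrArg Prod.snd hf1) j
      have g4 : ∀ j, q.2.2 ⟨(1, j), CPA_p 1 j (by decide)⟩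
          = q'.2.2 ⟨(1, j), CPA_p 1 j (by decide)⟩ := fun j => congrFun (congrArg Prod.snd hf2) j
      refine Prod.ext e1 (Prod.ext ?_ ?_)
      · funext i
        fin_cases i
        · exact g1
        · exact g2
        · exact hy.trans hy'.symm
      · funext p
        obtain ⟨⟨i, j⟩, hp⟩ := p
        fin_cases i
        · exact g3 j
        · exact g4 j
        · fin_cases j
          · exact hs0.trans hs0'.symm
          · exact hs1.trans hs1'.symm
          · exact absurd rfl hp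
  rw [card_product] at hle
  have h0 : (0 : ℝ) ≤ W.card := by positivity
  calc (Z.card : ℝ) ≤ (W.card : ℝ) * W.card := by exact_mod_cast hle
    _ ≤ (60020 * (KK : ℝ) ^ 3 * t) * (60020 * (KK : ℝ) ^ 3 * t) :=
      mul_le_mul hWc hWc h0 (h0.trans hWc)
    _ = (60020 * (KK : ℝ) ^ 3 * t) ^ 2 := by ring

end Pool.Agent.XG
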