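import Pool.Agent.helper14.XG.Spec

set_option autoImplicit false

namespace Pool.Agent.XG

open Finset Pool.Agent.XT

theorem NRB (hTGV : TGV_stmt) (hUPV : UPV_stmt) (hMXF : MXF_stmt) : NRB_stmt := by
  classical
  intro n D B Nr F hS hD hD0 t t' ht htt a b hab hR
  obtain ⟨G, hG, hGh⟩ := (hMXF n B a b).1 hR
  obtain ⟨T, hT⟩ : ∃ T : ℝ, T = 12 * (KK : ℝ) * (D : ℝ) ^ 3 * (60020 * (KK : ℝ) ^ 3 * t') ^ 2 :=
    ⟨_, rfl⟩
  rw [← hT]
  have hT0 : 0 ≤ T := by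
    rw [hT]
    positivity
  have hsub : (TG B Nr F t t').filter (fun q => q.1 2 = a ∧ q.2.1 2 = b) ⊆
      G.biUnion (fun v => (TG B Nr F t t').filter (fun q => q.1 2 = a ∧ q.2.1 2 = b ∧
        v ∈ inn q.2.1 q.1 q.2.2)) := by
    rintro ⟨x, y, s⟩ hq
    rw [mem_filter] at hq
    obtain ⟨h1, h2, h3⟩ := hq
    dsimp only at h2 h3
    have h4 := hTGV n B Nr F t t' x y s h1 (by
      rw [h2, h3]
      exact hab)
    have h5 : Gad B a b (inn y x s) := ⟨y, x, s, h4, h3, h2, rfl⟩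
    have h6 := hGh _ h5
    rw [Finset.not_disjoint_iff] at h6
    obtain ⟨v, hv1, hv2⟩ := h6
    rw [mem_biUnion]
    refine ⟨v, hv2, ?_⟩
    rw [mem_filter]
    exact ⟨h1, h2, h3, hv1⟩
  have h7 : (((TG B Nr F t t').filter (fun q => q.1 2 = a ∧ q.2.1 2 = b)).card : ℝ)
      ≤ ∑ v ∈ G, (((TG B Nr F t t').filter (fun q => q.1 2 = a ∧ q.2.1 2 = b ∧
        v ∈ inn q.2.1 q.1 q.2.2)).card : ℝ) := by
    have := (card_le_card hsub).trans card_biUnion_le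
    exact_mod_cast this
  refine h7.trans ?_
  have h8 : ∀ v ∈ G, (((TG B Nr F t t').filter (fun q => q.1 2 = a ∧ q.2.1 2 = b ∧
        v ∈ inn q.2.1 q.1 q.2.2)).card : ℝ) ≤ T := by
    intro v _
    rw [hT]
    exact hUPV n D B Nr F hS hD hD0 t t' ht htt a b v
  refine (Finset.sum_le_sum h8).trans ?_
  rw [Finset.sum_const, nsmul_eq_mul]
  apply mul_le_mul_of_nonneg_right _ hT0
  exact_mod_cast hG

end Pool.Agent.XG
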