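import Pool.Agent.helper14.XG.Spec

set_option autoImplicit false

namespace Pool.Agent.XG

open Finset Pool.Agent.XT

theorem NW1 : NW1_stmt := by
  classical
  intro n D B Nr F hS hD Z hZ
  have hsub : Z ⊆ (univ : Finset (Fin n)).biUnion (fun a => (dP B a).biUnion (fun l =>
      (univ.filter (fun b => (b, l) ∈ B ∧ b ≠ a ∧ ¬ Nr a b ∧ (a, l) ∈ B)).biUnion (fun b =>
        (dP B a).biUnion (fun m => (dL B m).image (fun y => (l, y, a, b)))))) := by
    rintro ⟨l, y, a, b⟩ hz
    obtain ⟨h1, h2, h3, h4⟩ := hZ _ hz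
    dsimp only at h1 h2 h3 h4
    rw [NS, mem_filter] at h1 h2
    obtain ⟨-, hyl, hal, hLa⟩ := h1
    obtain ⟨-, -, hbl, hLb⟩ := h2
    obtain ⟨m, hm⟩ := hLa.2.2.1
    rw [com, mem_filter] at hm
    simp only [mem_biUnion, mem_image, mem_univ, true_and, mem_filter, dP, dL]
    exact ⟨a, l, hal, b, ⟨hbl, fun h => h3 h.symm, h4, hal⟩, m, hm.2.1, y, hm.2.2, rfl⟩
  have hfew : ∀ a l : Fin n,
      (univ.filter (fun b => (b, l) ∈ B ∧ b ≠ a ∧ ¬ Nr a b ∧ (a, l) ∈ B)).card ≤ 500 := by
    intro a l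
    by_cases h : (a, l) ∈ B
    · refine (card_le_card ?_).trans (hS.few a l h)
      intro b hb
      simp only [mem_filter, mem_univ, true_and] at hb ⊢
      exact ⟨hb.1, hb.2.1, hb.2.2.1⟩
    · rw [filter_false_of_mem]
      · simp
      · intro b _ hb
        exact h hb.2.2.2
  refine (card_le_card hsub).trans ?_
  have h1 := card_biUnion_le_card_mul (univ : Finset (Fin n)) (fun a => (dP B a).biUnion (fun l =>
      (univ.filter (fun b => (b, l) ∈ B ∧ b ≠ a ∧ ¬ Nr a b ∧ (a, l) ∈ B)).biUnion (fun b =>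
        (dP B a).biUnion (fun m => (dL B m).image (fun y => (l, y, a, b)))))) (D * (500 * (D * D)))
    (by
      intro a _
      refine (card_biUnion_le_card_mul _ _ (500 * (D * D)) ?_).trans
        (Nat.mul_le_mul_right _ (hD.pu a))
      intro l _
      refine (card_biUnion_le_card_mul _ _ (D * D) ?_).trans
        (Nat.mul_le_mul_right _ (hfew a l))
      intro b _
      refine (card_biUnion_le_card_mul _ _ D ?_).trans
        (Nat.mul_le_mul_right _ (hD.pu a))
      intro m _
      exact card_image_le.trans (hD.lu m))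
  refine h1.trans (le_of_eq ?_)
  rw [card_univ, Fintype.card_fin]
  ring

end Pool.Agent.XG
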