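import Pool.Agent.helper14.XG.Spec

set_option autoImplicit false

namespace Pool.Agent.XG

open Finset Pool.Agent.XT

theorem NW3 : NW3_stmt := by
  classical
  intro n D B Nr F hS hD Z hZ
  have hsub : Z ⊆ (univ : Finset (Fin n)).biUnion (fun a => (dP B a).biUnion (fun l =>
      ((dL B l).filter (fun b => Lt B Nr a b)).biUnion (fun b =>
        (com B a b).biUnion (fun m => (dL B m).image (fun y => (l, y, a, b)))))) := by
    rintro ⟨l, y, a, b⟩ hz
    obtain ⟨h1, h2, h3, m, h4, h5, h6⟩ := hZ _ hz
    dsimp only at h1 h2 h3 h4 h5 h6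
    rw [NS, mem_filter] at h1 h2
    obtain ⟨-, hyl, hal, hLa⟩ := h1
    obtain ⟨-, -, hbl, hLb⟩ := h2
    simp only [mem_biUnion, mem_image, mem_univ, true_and, mem_filter, dP, dL, com]
    exact ⟨a, l, hal, b, ⟨hbl, h3⟩, m, ⟨h4, h5⟩, y, h6, rfl⟩
  refine (card_le_card hsub).trans ?_
  have h1 := card_biUnion_le_card_mul (univ : Finset (Fin n)) (fun a => (dP B a).biUnion (fun l =>
      ((dL B l).filter (fun b => Lt B Nr a b)).biUnion (fun b =>
        (com B a b).biUnion (fun m => (dL B m).image (fun y => (l, y, a, b))))))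
    (D * (D * (KK * D)))
    (by
      intro a _
      refine (card_biUnion_le_card_mul _ _ (D * (KK * D)) ?_).trans
        (Nat.mul_le_mul_right _ (hD.pu a))
      intro l _
      refine (card_biUnion_le_card_mul _ _ (KK * D) ?_).trans
        (Nat.mul_le_mul_right _ ((card_filter_le _ _).trans (hD.lu l)))
      intro b hb
      have hb2 := (mem_filter.1 hb).2
      refine (card_biUnion_le_card_mul _ _ D ?_).trans
        (Nat.mul_le_mul_right _ hb2.2.2.2)
      intro m _
      exact card_image_le.trans (hD.lu m))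
  refine h1.trans (le_of_eq ?_)
  rw [card_univ, Fintype.card_fin]
  ring

end Pool.Agent.XG
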