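import Pool.Agent.helper14.XG.Spec

set_option autoImplicit false

namespace Pool.Agent.XG

open Finset Pool.Agent.XT

theorem UPW (hCPA : CPA_stmt) : UPW_stmt := by
  classical
  intro n D B Nr F hS hD t t' ht
  obtain ⟨T, hT⟩ : ∃ T : ℝ, T = (60020 * (KK : ℝ) ^ 3 * t) ^ 2 := ⟨_, rfl⟩
  rw [← hT]
  have hT0 : 0 ≤ T := by
    rw [hT]
    positivity
  have hp20 : ((2, 0) : Fin 3 × Fin 3) ≠ (2, 2) := by decide
  have hp21 : ((2, 1) : Fin 3 × Fin 3) ≠ (2, 2) := by decide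
  have key : ∀ a b : Fin n, (((TG B Nr F t t').filter (fun q => q.1 2 = a ∧ q.2.1 2 = b)).card : ℝ) ≤
      (D : ℝ) ^ 4 * T := by
    intro a b
    obtain ⟨P, hP⟩ : ∃ P : Finset (Fin n × Fin n), P = (dP B b).biUnion
      (fun l => (dL B l).image (fun x => (l, x))) := ⟨_, rfl⟩
    have hPc : P.card ≤ D * D := by
      rw [hP]
      refine (card_biUnion_le_card_mul _ _ D ?_).trans (Nat.mul_le_mul_right _ (hD.pu b))
      intro l _
      exact card_image_le.trans (hD.lu l)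
    obtain ⟨S, hSd⟩ : ∃ S : Finset ((Fin 3 → Fin n) × (Fin 3 → Fin n) × (P8 → Fin n)),
      S = (TG B Nr F t t').filter (fun q => q.1 2 = a ∧ q.2.1 2 = b) := ⟨_, rfl⟩
    rw [← hSd]
    have hmap : ∀ q ∈ S, (((q.2.2 ⟨(2, 0), hp20⟩, q.1 0), (q.2.2 ⟨(2, 1), hp21⟩, q.1 1)) :
        (Fin n × Fin n) × (Fin n × Fin n)) ∈ P ×ˢ P := by
      intro q hq
      rw [hSd, mem_filter, TG, mem_filter] at hq
      obtain ⟨⟨-, h1, -⟩, h2, h3⟩ := hq
      have h01 : (0 : Fin 3) ≠ 1 := by decide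
      have h4 := h1 ⟨(2, 0), hp20⟩ ⟨(2, 1), hp21⟩ rfl h01
      obtain ⟨-, -, k1, k2, k3, k4, -⟩ := h4
      dsimp only at k1 k2 k3 k4
      rw [h3] at k2 k3
      rw [mem_product, hP]
      simp only [mem_biUnion, mem_image, dP, dL, mem_filter, mem_univ, true_and]
      exact ⟨⟨_, k2, _, k1, rfl⟩, ⟨_, k3, _, k4, rfl⟩⟩
    have hcard := card_eq_sum_card_fiberwise (f := fun q : (Fin 3 → Fin n) × (Fin 3 → Fin n) ×
      (P8 → Fin n) => (((q.2.2 ⟨(2, 0), hp20⟩, q.1 0), (q.2.2 ⟨(2, 1), hp21⟩, q.1 1)) :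
        (Fin n × Fin n) × (Fin n × Fin n))) (s := S) (t := P ×ˢ P) hmap
    have hcard2 : (S.card : ℝ) = ∑ c ∈ P ×ˢ P, ((S.filter (fun q =>
        (((q.2.2 ⟨(2, 0), hp20⟩, q.1 0), (q.2.2 ⟨(2, 1), hp21⟩, q.1 1)) :
        (Fin n × Fin n) × (Fin n × Fin n)) = c)).card : ℝ) := by
      rw [hcard]
      push_cast
      rfl
    rw [hcard2]
    have hb : ∀ c ∈ P ×ˢ P, ((S.filter (fun q =>
        (((q.2.2 ⟨(2, 0), hp20⟩, q.1 0), (q.2.2 ⟨(2, 1), hp21⟩, q.1 1)) :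
        (Fin n × Fin n) × (Fin n × Fin n)) = c)).card : ℝ) ≤ T := by
      rintro ⟨⟨l0, x0⟩, ⟨l1, x1⟩⟩ -
      rw [hT]
      apply hCPA n B Nr F hS t t' ht a b x0 x1 l0 l1
      intro q hq
      rw [mem_filter, hSd, mem_filter] at hq
      obtain ⟨⟨h1, h2, h3⟩, h4⟩ := hq
      simp only [Prod.mk.injEq] at h4
      exact ⟨h1, h2, h3, h4.1.2, h4.2.2, h4.1.1, h4.2.1⟩
    refine (Finset.sum_le_sum hb).trans ?_
    rw [Finset.sum_const, nsmul_eq_mul, card_product]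
    apply mul_le_mul_of_nonneg_right _ hT0
    have h5 : P.card * P.card ≤ D ^ 4 := by
      calc P.card * P.card ≤ (D * D) * (D * D) := Nat.mul_le_mul hPc hPc
        _ = D ^ 4 := by ring
    exact_mod_cast h5
  refine ⟨key, ?_⟩
  obtain ⟨S, hSd⟩ : ∃ S : Finset ((Fin 3 → Fin n) × (Fin 3 → Fin n) × (P8 → Fin n)),
      S = (TG B Nr F t t').filter (fun q => q.1 2 = q.2.1 2) := ⟨_, rfl⟩
  rw [← hSd]
  have hcard := card_eq_sum_card_fiberwise (f := fun q : (Fin 3 → Fin n) × (Fin 3 → Fin n) ×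
      (P8 → Fin n) => q.1 2) (s := S) (t := univ) (fun q _ => mem_univ _)
  have hcard2 : (S.card : ℝ) = ∑ c : Fin n, ((S.filter (fun q => q.1 2 = c)).card : ℝ) := by
    rw [hcard]
    push_cast
    rfl
  rw [hcard2]
  have hb : ∀ c ∈ (univ : Finset (Fin n)), ((S.filter (fun q => q.1 2 = c)).card : ℝ)
      ≤ (D : ℝ) ^ 4 * T := by
    intro c _
    refine le_trans ?_ (key c c)
    have h6 : (S.filter (fun q => q.1 2 = c)).card
        ≤ ((TG B Nr F t t').filter (fun q => q.1 2 = c ∧ q.2.1 2 = c)).card := by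
      apply card_le_card
      intro q hq
      rw [mem_filter, hSd, mem_filter] at hq
      rw [mem_filter]
      exact ⟨hq.1.1, hq.2, hq.1.2 ▸ hq.2⟩
    exact_mod_cast h6
  refine (Finset.sum_le_sum hb).trans ?_
  rw [Finset.sum_const, nsmul_eq_mul, card_univ, Fintype.card_fin]
  apply le_of_eq
  ring

end Pool.Agent.XG
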